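import Pool.Agent.R768.SG.Fld2
import Pool.Agent.R768.IG.Final

/-!
# Assembly over a general field
-/

set_option autoImplicit false

open scoped Pointwise

namespace Pool.Agent.R768.SG

open Pool.Agent.R768.IG

theorem ker_restrict' {k L : Type} [Field k] [Field L] [Algebra k L] (F : IntermediateField k L)
    [IsGalois k F] :
    (AlgEquiv.restrictNormalHom F : (L ≃ₐ[k] L) →* (F ≃ₐ[k] F)).ker = F.fixingSubgroup := by
  ext g
  rw [MonoidHom.mem_ker, IntermediateField.mem_fixingSubgroup_iff]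
  constructor
  · intro h x hx
    have h1 := AlgEquiv.restrictNormal_commutes g F ⟨x, hx⟩
    have h2 : (AlgEquiv.restrictNormal g F) ⟨x, hx⟩ = (⟨x, hx⟩ : F) := DFunLike.congr_fun h _
    rw [h2] at h1
    exact h1.symm
  · intro h
    ext x
    have h1 := AlgEquiv.restrictNormal_commutes g F x
    exact h1.trans (h x x.2)

/-- the situation in which the local theorems apply -/
theorem setup {k : Type} [Field k] {G : Type} [Group G] [Finite G] (E : ℕ) (L : Type) [Field L]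
    [Algebra k L] [FiniteDimensional k L] [IsGalois k L] (e : (L ≃ₐ[k] L) ≃* Cov G E)
    (F : IntermediateField k L)
    (hF : F = IntermediateField.fixedField ((cpr G E).comp e.toMonoidHom).ker) :
    ∃ (_ : IsGalois k F) (N : Subgroup (L ≃ₐ[k] L)) (_ : IsGaloisGroup N F L)
      (ι : G ≃* (F ≃ₐ[k] F)),
      (AlgEquiv.restrictNormalHom F : (L ≃ₐ[k] L) →* (F ≃ₐ[k] F)).ker = N ∧
      (∀ σ, ι (cpr G E (e σ)) = AlgEquiv.restrictNormalHom F σ) ∧
      Lifts E (AlgEquiv.restrictNormalHom F : (L ≃ₐ[k] L) →* (F ≃ₐ[k] F)) := by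
  set c : (L ≃ₐ[k] L) →* G := (cpr G E).comp e.toMonoidHom with hc
  have hcs : Function.Surjective c := (cpr_surj G _).comp e.surjective
  have hG : IsGalois k F := by
    subst hF
    exact IsGalois.of_fixedField_normal_subgroup c.ker
  have hNF : IsGaloisGroup c.ker F L := by
    rw [hF]
    exact IsGaloisGroup.subgroup _ k L c.ker
  have hker : (AlgEquiv.restrictNormalHom F : (L ≃ₐ[k] L) →* (F ≃ₐ[k] F)).ker = c.ker := by
    rw [ker_restrict', hF, IntermediateField.fixingSubgroup_fixedField]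
  obtain ⟨ι, hι⟩ := iso_of_ker (AlgEquiv.restrictNormalHom F : (L ≃ₐ[k] L) →* (F ≃ₐ[k] F)) c
    (AlgEquiv.restrictNormalHom_surjective L) hcs hker.symm
  refine ⟨hG, c.ker, hNF, ι, hker, hι, ?_⟩
  have h1 := ((lifts_cov G E).comp_right e).comp_left ι
  have h2 : ι.toMonoidHom.comp ((cpr G E).comp e.toMonoidHom) =
      (AlgEquiv.restrictNormalHom F : (L ≃ₐ[k] L) →* (F ≃ₐ[k] F)) := by
    ext1 x
    exact hι x
  rw [h2] at h1
  exact h1

section finite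

/-- for finite residue fields of characteristic `p` -/
theorem root_finite {A B : Type} [CommRing A] [CommRing B] [Algebra A B] [Algebra.IsIntegral A B]
    {M ℓ p d : ℕ} (hp : p.Prime) (hℓ : ℓ.Prime) (P : Ideal B) [P.IsMaximal] (hpA : (p : A) = 0)
    (hcard : Nat.card (A ⧸ P.under A) = p ^ d) (h : RootAt A M ℓ P)
    (hℓp : ℓ ∣ p ^ (ℓ - 1) - 1) : ℓ ^ (M + 1) ∣ p ^ (d * (ℓ - 1)) - 1 := by
  obtain ⟨ζ, hζ, hζ2⟩ := h
  let _ : Field (B ⧸ P) := Ideal.Quotient.field P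
  let _ : Field (A ⧸ P.under A) := Ideal.Quotient.field _
  have hpf : Fact p.Prime := ⟨hp⟩
  have hch : CharP (B ⧸ P) p := by
    rw [CharP.charP_iff_prime_eq_zero hp]
    have h1 : ((p : ℕ) : B ⧸ P) = algebraMap A (B ⧸ P) (p : A) := by simp
    rw [h1, hpA, map_zero]
  have hfin : Finite (A ⧸ P.under A) := Nat.finite_of_card_ne_zero (by
    rw [hcard]; exact (pow_pos hp.pos _).ne')
  let _ : Fintype (A ⧸ P.under A) := Fintype.ofFinite _
  have hfix : ∀ a : A, (algebraMap A (B ⧸ P) a) ^ p ^ (d * (ℓ - 1)) = algebraMap A (B ⧸ P) a := by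
    intro a
    have h0 : ∀ x : A ⧸ P.under A, x ^ p ^ (d * (ℓ - 1)) = x := by
      intro x
      have h1 := FiniteField.pow_card_pow (ℓ - 1) x
      rw [← Nat.card_eq_fintype_card, hcard, ← pow_mul] at h1
      exact h1
    rw [IsScalarTower.algebraMap_apply A (A ⧸ P.under A) (B ⧸ P), ← map_pow, h0]
  let φ : (B ⧸ P) →ₐ[A] (B ⧸ P) :=
    { iterateFrobenius (B ⧸ P) p (d * (ℓ - 1)) with commutes' := hfix }
  have hφ : ∀ x, φ x = x ^ p ^ (d * (ℓ - 1)) := fun x => rfl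
  have hpos : 1 ≤ p ^ (d * (ℓ - 1)) := Nat.one_le_pow _ _ hp.pos
  have h1 : ζ ∈ AlgHom.equalizer φ (AlgHom.id A (B ⧸ P)) := by
    refine Algebra.adjoin_le ?_ hζ2
    rintro _ rfl
    rw [SetLike.mem_coe, AlgHom.mem_equalizer, AlgHom.id_apply, hφ, ← pow_mul]
    have h2 : ℓ ∣ p ^ (d * (ℓ - 1)) - 1 := by
      rw [mul_comm, pow_mul]
      refine hℓp.trans ?_
      have := Nat.sub_dvd_pow_sub_pow (p ^ (ℓ - 1)) 1 d
      rwa [one_pow] at this
    obtain ⟨m, hm⟩ := h2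
    have h3 : p ^ (d * (ℓ - 1)) = ℓ * m + 1 := by omega
    rw [h3, mul_add, mul_one, pow_add, ← mul_assoc, ← pow_succ, pow_mul, hζ.pow_eq_one, one_pow,
      one_mul]
  rw [AlgHom.mem_equalizer, AlgHom.id_apply, hφ] at h1
  apply hζ.dvd_of_pow_eq_one
  have h2 : ζ ≠ 0 := by
    rintro rfl
    have h3 := hζ.pow_eq_one
    rw [zero_pow (pow_pos hℓ.pos _).ne'] at h3
    exact zero_ne_one h3
  rw [pow_sub₀ _ h2 hpos, h1, pow_one, mul_inv_cancel₀ h2]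

/-- a lemma on orders -/
theorem large_degree {p ℓ M N d : ℕ} (hp : p.Prime) (hℓ : ℓ.Prime) (hne : ℓ ≠ p)
    (hM : p ^ ((ℓ - 1) * ℓ ^ N) ≤ ℓ ^ (M + 1)) (h : ℓ ^ (M + 1) ∣ p ^ (d * (ℓ - 1)) - 1) :
    ℓ ^ N ∣ d := by
  set a : ZMod (ℓ ^ (M + 1)) := ((p ^ (ℓ - 1) : ℕ) : ZMod (ℓ ^ (M + 1))) with ha
  have hℓp : ℓ ∣ p ^ (ℓ - 1) - 1 := by
    have h3 := Nat.ModEq.pow_totient ((Nat.coprime_primes hp hℓ).2 hne.symm)
    rw [Nat.totient_prime hℓ] at h3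
    exact (Nat.modEq_iff_dvd' (Nat.one_le_pow _ _ hp.pos)).1 h3.symm
  have key : ∀ i : ℕ, a ^ i = 1 ↔ ℓ ^ (M + 1) ∣ p ^ (i * (ℓ - 1)) - 1 := by
    intro i
    have h1 : a ^ i = ((p ^ (i * (ℓ - 1)) : ℕ) : ZMod (ℓ ^ (M + 1))) := by
      rw [ha, ← Nat.cast_pow, ← pow_mul, mul_comm]
    have h2 : (1 : ZMod (ℓ ^ (M + 1))) = ((1 : ℕ) : ZMod (ℓ ^ (M + 1))) := by simp
    rw [h1, h2, ZMod.natCast_eq_natCast_iff]
    constructor
    · intro h3
      exact (Nat.modEq_iff_dvd' (Nat.one_le_pow _ _ hp.pos)).1 h3.symm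
    · intro h3
      exact ((Nat.modEq_iff_dvd' (Nat.one_le_pow _ _ hp.pos)).2 h3).symm
  have h1 : a ^ ℓ ^ M = 1 := by
    rw [key]
    have h2 : ((ℓ : ℕ) : ℤ) ∣ ((p ^ (ℓ - 1) : ℕ) : ℤ) - 1 := by
      have := Int.natCast_dvd_natCast.2 hℓp
      rwa [Nat.cast_sub (Nat.one_le_pow _ _ hp.pos), Nat.cast_one] at this
    have h3 := dvd_sub_pow_of_dvd_sub h2 M
    rw [one_pow, ← Nat.cast_pow, ← Nat.cast_pow, ← pow_mul] at h3
    have h4 : (((ℓ ^ (M + 1) : ℕ)) : ℤ) ∣ ((p ^ (ℓ ^ M * (ℓ - 1)) - 1 : ℕ) : ℤ) := by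
      rw [Nat.cast_sub (Nat.one_le_pow _ _ hp.pos), Nat.cast_one, mul_comm (ℓ ^ M)]
      exact h3
    exact Int.natCast_dvd_natCast.1 h4
  obtain ⟨c, hc, hc2⟩ := (Nat.dvd_prime_pow hℓ).1 (orderOf_dvd_of_pow_eq_one h1)
  have h2 : orderOf a ∣ d := orderOf_dvd_of_pow_eq_one ((key d).2 h)
  rw [hc2] at h2
  refine (pow_dvd_pow ℓ ?_).trans h2
  by_contra hcon
  push Not at hcon
  have h3 : a ^ ℓ ^ N = 1 := by
    rw [← orderOf_dvd_iff_pow_eq_one, hc2]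
    exact pow_dvd_pow ℓ hcon.le
  rw [key] at h3
  have h4 : 1 < p ^ (ℓ ^ N * (ℓ - 1)) := by
    apply Nat.one_lt_pow
    · exact (Nat.mul_pos (pow_pos hℓ.pos _) (Nat.sub_pos_of_lt hℓ.one_lt)).ne'
    · exact hp.one_lt
  have h5 := Nat.le_of_dvd (by omega) h3
  rw [mul_comm (ℓ ^ N)] at h4 h5
  generalize p ^ ((ℓ - 1) * ℓ ^ N) = X at *
  generalize ℓ ^ (M + 1) = Y at *
  omega

end finite

end Pool.Agent.R768.SG
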