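import Pool.Agent.R768.SG.Ring
import Pool.Agent.R768.IG.NF

/-!
# The theorem for field extensions
-/

set_option autoImplicit false

open scoped Pointwise

namespace Pool.Agent.R768.SG

open Pool.Agent.R768.IG

section alg

variable (A F L : Type) [CommRing A] [Field F] [Field L] [Algebra A F] [Algebra A L] [Algebra F L]
  [IsScalarTower A F L]

/-- the inclusion of integral closures -/
@[reducible] def algBC : Algebra (integralClosure A F) (integralClosure A L) :=
  ((IsScalarTower.toAlgHom A F L).mapIntegralClosure).toRingHom.toAlgebra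

attribute [local instance] algBC

theorem algBC_apply (x : integralClosure A F) :
    ((algebraMap (integralClosure A F) (integralClosure A L) x : integralClosure A L) : L) =
      algebraMap F L x := rfl

theorem tower_ABC : IsScalarTower A (integralClosure A F) (integralClosure A L) :=
  IsScalarTower.of_algebraMap_eq fun x => Subtype.ext (IsScalarTower.algebraMap_apply A F L x)

theorem tower_BCL : IsScalarTower (integralClosure A F) (integralClosure A L) L :=
  IsScalarTower.of_algebraMap_eq fun _ => rfl

end alg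

section basic

variable (k L A : Type) [Field k] [Field L] [Algebra k L] [FiniteDimensional k L] [IsGalois k L]
  [CommRing A] [IsDedekindDomain A] [Algebra A k] [IsFractionRing A k] [Algebra A L]
  [IsScalarTower A k L]

include k

omit [FiniteDimensional k L] [IsGalois k L] [IsDedekindDomain A] in
theorem ic_inj : Function.Injective (algebraMap A (integralClosure A L)) := by
  intro x y h
  have h1 : algebraMap A L x = algebraMap A L y := congrArg Subtype.val h
  rw [IsScalarTower.algebraMap_apply A k L, IsScalarTower.algebraMap_apply A k L] at h1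
  exact IsFractionRing.injective A k ((algebraMap k L).injective h1)

omit [FiniteDimensional k L] [IsGalois k L] in
theorem ic_torsionFree : Module.IsTorsionFree A (integralClosure A L) := by
  have : FaithfulSMul A (integralClosure A L) :=
    (faithfulSMul_iff_algebraMap_injective A (integralClosure A L)).2 (ic_inj k L A)
  infer_instance

theorem ic_facts : IsDedekindDomain (integralClosure A L) ∧
    IsFractionRing (integralClosure A L) L ∧ Module.Finite A (integralClosure A L) ∧
    Module.IsTorsionFree A (integralClosure A L) :=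
  ⟨integralClosure.isDedekindDomain A k L, integralClosure.isFractionRing_of_finite_extension k L,
    IsIntegralClosure.finite A k L (integralClosure A L), ic_torsionFree k L A⟩

theorem ic_galois : IsGaloisGroup (L ≃ₐ[k] L) A (integralClosure A L) := by
  obtain ⟨h1, h2, h3, h4⟩ := ic_facts k L A
  exact IsGaloisGroup.of_isFractionRing (L ≃ₐ[k] L) A (integralClosure A L) k L

end basic

section perfect

attribute [local instance] Ideal.Quotient.field in
theorem perfect_up {A B G : Type} [CommRing A] [CommRing B] [Algebra A B] [Group G] [Finite G]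
    [MulSemiringAction G B] [IsGaloisGroup G A B] (𝔪 : Ideal A) [𝔪.IsMaximal]
    [PerfectField 𝔪.ResidueField] (P : Ideal B) [P.IsMaximal] [P.LiesOver 𝔪] :
    PerfectField P.ResidueField := by
  have hpf : PerfectField (A ⧸ 𝔪) :=
    PerfectField.of_ringEquiv (RingEquiv.ofBijective _
      (Ideal.bijective_algebraMap_quotient_residueField 𝔪)).symm
  have hnorm : Normal (A ⧸ 𝔪) (B ⧸ P) := Ideal.Quotient.normal G 𝔪 P
  have h1 : PerfectField (B ⧸ P) := Algebra.IsAlgebraic.perfectField (A ⧸ 𝔪)
  exact PerfectField.of_ringEquiv (RingEquiv.ofBijective _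
      (Ideal.bijective_algebraMap_quotient_residueField P))

end perfect

section main

variable {k L A : Type} [Field k] [Field L] [Algebra k L] [FiniteDimensional k L] [IsGalois k L]
  [CommRing A] [IsDedekindDomain A] [Algebra A k] [IsFractionRing A k] [Algebra A L]
  [IsScalarTower A k L] (F : Type) [Field F] [Algebra k F] [Algebra F L] [IsScalarTower k F L]
  [Algebra A F] [IsScalarTower A k F] [IsScalarTower A F L] [IsGalois k F]

attribute [local instance] algBC

theorem ell_inertia' (N : Subgroup (L ≃ₐ[k] L)) [hNF : IsGaloisGroup N F L] {ℓ : ℕ} (hℓ : ℓ.Prime)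
    (𝔪 : Ideal A) [𝔪.IsMaximal] [PerfectField 𝔪.ResidueField]
    (P' : Ideal (integralClosure A F)) [hP' : P'.IsMaximal] [P'.LiesOver 𝔪]
    (P : Ideal (integralClosure A L)) [hP : P.IsMaximal] [hPP : P.LiesOver P'] [P.LiesOver 𝔪]
    (hd : ℓ ∣ P'.ramificationIdx A) :
    ∃ τ ∈ P.inertia (L ≃ₐ[k] L), ∃ j, τ ^ ℓ ^ j = 1 ∧ τ ∉ N := by
  have hkF : FiniteDimensional k F := FiniteDimensional.left k F L
  obtain ⟨hC1, hC2, hC3, hC4⟩ := ic_facts k L A
  obtain ⟨hB1, hB2, hB3, hB4⟩ := ic_facts k F A
  have hGC := ic_galois k L A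
  have hGB := ic_galois k F A
  have hT1 := tower_ABC A F L
  have hT2 := tower_BCL A F L
  have hBCf : Module.Finite (integralClosure A F) (integralClosure A L) :=
    Module.Finite.of_restrictScalars_finite A _ _
  have hBCinj : Function.Injective
      (algebraMap (integralClosure A F) (integralClosure A L)) := by
    intro x y h
    have h1 := congrArg Subtype.val h
    rw [algBC_apply, algBC_apply] at h1
    exact Subtype.ext ((algebraMap F L).injective h1)
  have hBCt : Module.IsTorsionFree (integralClosure A F) (integralClosure A L) := by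
    have : FaithfulSMul (integralClosure A F) (integralClosure A L) :=
      (faithfulSMul_iff_algebraMap_injective _ _).2 hBCinj
    infer_instance
  have hpP' : PerfectField P'.ResidueField := perfect_up (G := (F ≃ₐ[k] F)) 𝔪 P'
  have hNI : IsGaloisGroup N (integralClosure A F) (integralClosure A L) :=
    IsGaloisGroup.of_isFractionRing N (integralClosure A F) (integralClosure A L) F L
  apply exists_ell (P.inertia (L ≃ₐ[k] L)) N (e := P'.ramificationIdx A) hℓ _ hd
  have h1 : Nat.card (P.inertia (L ≃ₐ[k] L)) = P.ramificationIdx A := by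
    rw [Ideal.card_inertia_eq_ramificationIdxIn (G := (L ≃ₐ[k] L)) 𝔪 P]
    exact Ideal.ramificationIdxIn_eq_ramificationIdx 𝔪 P (L ≃ₐ[k] L)
  have h2 : Nat.card (P.inertia N) = P.ramificationIdx (integralClosure A F) := by
    rw [Ideal.card_inertia_eq_ramificationIdxIn (G := N) P' P]
    exact Ideal.ramificationIdxIn_eq_ramificationIdx P' P N
  have h3 : Nat.card (N.subgroupOf (P.inertia (L ≃ₐ[k] L))) = Nat.card (P.inertia N) := by
    have h4 : P.inertia N = (P.inertia (L ≃ₐ[k] L)).subgroupOf N := rfl
    rw [h4]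
    exact card_subgroupOf_comm _ _
  rw [h1, h3, h2]
  exact Ideal.ramificationIdx_tower P' P

theorem algebraMap_restrict' (g : L ≃ₐ[k] L) (x : integralClosure A F) :
    g • algebraMap (integralClosure A F) (integralClosure A L) x =
      algebraMap (integralClosure A F) (integralClosure A L)
        ((AlgEquiv.restrictNormalHom F g : F ≃ₐ[k] F) • x) := by
  apply Subtype.ext
  exact (AlgEquiv.restrictNormal_commutes g F (x : F)).symm

theorem field_root (N : Subgroup (L ≃ₐ[k] L)) [hNF : IsGaloisGroup N F L]
    (hN : (AlgEquiv.restrictNormalHom F : (L ≃ₐ[k] L) →* (F ≃ₐ[k] F)).ker = N) {E M : ℕ}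
    (hE : 0 < E) (hL : Lifts E (AlgEquiv.restrictNormalHom F : (L ≃ₐ[k] L) →* (F ≃ₐ[k] F)))
    {ℓ : ℕ} (hℓ : ℓ.Prime) (hdiv : ℓ ∣ Nat.card (F ≃ₐ[k] F) → ℓ ^ M ∣ E)
    (P' : Ideal (integralClosure A F)) [hP' : P'.IsMaximal] (hP'0 : P' ≠ ⊥)
    [hpf : PerfectField (P'.under A).ResidueField] (hℓP' : (ℓ : integralClosure A F) ∉ P')
    (hd : ℓ ∣ P'.ramificationIdx A) : ℓ ∣ Nat.card (F ≃ₐ[k] F) ∧ RootAt A M ℓ P' := by
  have hkF : FiniteDimensional k F := FiniteDimensional.left k F L
  obtain ⟨hC1, hC2, hC3, hC4⟩ := ic_facts k L A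
  obtain ⟨hB1, hB2, hB3, hB4⟩ := ic_facts k F A
  have hGC := ic_galois k L A
  have hGB := ic_galois k F A
  have hT1 := tower_ABC A F L
  have hT2 := tower_BCL A F L
  have hm : (P'.under A).IsMaximal := inferInstance
  have hPu : P'.LiesOver (P'.under A) := ⟨rfl⟩
  have hint : Algebra.IsIntegral (integralClosure A F) (integralClosure A L) :=
    Algebra.IsIntegral.tower_top A
  have hBCinj : Function.Injective
      (algebraMap (integralClosure A F) (integralClosure A L)) := by
    intro x y h
    have h1 := congrArg Subtype.val h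
    rw [algBC_apply, algBC_apply] at h1
    exact Subtype.ext ((algebraMap F L).injective h1)
  have hBCf : FaithfulSMul (integralClosure A F) (integralClosure A L) :=
      (faithfulSMul_iff_algebraMap_injective _ _).2 hBCinj
  obtain ⟨P, hP, hPP⟩ : ∃ P : Ideal (integralClosure A L), P.IsPrime ∧ P.LiesOver P' := by
    obtain ⟨⟨P, h1, h2⟩⟩ := (inferInstance : Nonempty (P'.primesOver (integralClosure A L)))
    exact ⟨P, h1, h2⟩
  have hPm : P.IsMaximal := Ideal.IsMaximal.of_liesOver_isMaximal P P'
  have hPu2 : P.LiesOver (P'.under A) := Ideal.LiesOver.trans P P' (P'.under A)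
  have hP0 : P ≠ ⊥ := by
    rintro rfl
    apply hP'0
    rw [Ideal.over_def (⊥ : Ideal (integralClosure A L)) P', eq_bot_iff]
    intro x hx
    have h1 : algebraMap (integralClosure A F) (integralClosure A L) x = 0 := hx
    exact (map_eq_zero_iff _ hBCinj).1 h1
  have hℓP : (ℓ : integralClosure A L) ∉ P := by
    intro h
    apply hℓP'
    rw [Ideal.mem_of_liesOver P P']
    simpa using h
  obtain ⟨τ, hτ, j, hj, hτN⟩ := ell_inertia' F N hℓ (P'.under A) P' P hd
  have hτ1 : (AlgEquiv.restrictNormalHom F : (L ≃ₐ[k] L) →* (F ≃ₐ[k] F)) τ ≠ 1 := by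
    intro h
    apply hτN
    rw [← hN]; exact h
  have hjr : ((AlgEquiv.restrictNormalHom F : (L ≃ₐ[k] L) →* (F ≃ₐ[k] F)) τ) ^ ℓ ^ j = 1 := by
    rw [← map_pow, hj, map_one]
  have hℓH : ℓ ∣ Nat.card (F ≃ₐ[k] F) :=
    (ell_dvd_order hℓ hjr hτ1).trans (orderOf_dvd_natCard _)
  exact ⟨hℓH, root_at (AlgEquiv.restrictNormalHom F : (L ≃ₐ[k] L) →* (F ≃ₐ[k] F))
    (fun g b => algebraMap_restrict' F g b) hE hL hℓ (hdiv hℓH) (P'.under A) P' hP'0 P hP0 hℓP
    hτ hj hτ1⟩

end main

end Pool.Agent.R768.SG
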