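import Pool.Agent.R768.SG.Fld

/-!
# Decomposition groups and involutions
-/

set_option autoImplicit false

open scoped Pointwise

namespace Pool.Agent.R768.SG

open Pool.Agent.R768.IG

section residue

variable {A S Γ : Type*} [CommRing A] [CommRing S] [Algebra A S] [Group Γ]
  [MulSemiringAction Γ S] [SMulCommClass Γ A S] (P : Ideal S)

attribute [local instance] Ideal.Quotient.field in
theorem stab_cyc' (𝔪 : Ideal A) [𝔪.IsMaximal] [P.LiesOver 𝔪] [P.IsMaximal] [Finite (S ⧸ P)]
    (B : Subgroup Γ) :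
    ∃ b ∈ MulAction.stabilizer Γ P ⊓ B, ∀ x ∈ MulAction.stabilizer Γ P ⊓ B,
      ∃ k : ℤ, x * (b ^ k)⁻¹ ∈ P.inertia Γ := by
  have hcyc : IsCyclic ((S ⧸ P) ≃ₐ[A ⧸ 𝔪] (S ⧸ P)) := inferInstance
  obtain ⟨b, hb, h⟩ := cyc_mod (Ideal.Quotient.stabilizerHom P 𝔪 Γ)
    (B.subgroupOf (MulAction.stabilizer Γ P))
  refine ⟨b, ⟨b.2, hb⟩, fun x hx => ?_⟩
  obtain ⟨k, hk⟩ := h ⟨x, hx.1⟩ hx.2
  refine ⟨k, ?_⟩
  have h1 := Ideal.Quotient.ker_stabilizerHom P 𝔪 Γ
  have h2 := MonoidHom.mem_ker.2 hk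
  rw [h1] at h2
  exact h2

end residue

section main

variable {k L A : Type} [Field k] [Field L] [Algebra k L] [FiniteDimensional k L] [IsGalois k L]
  [CommRing A] [IsDedekindDomain A] [Algebra A k] [IsFractionRing A k] [Algebra A L]
  [IsScalarTower A k L] (F : Type) [Field F] [Algebra k F] [Algebra F L] [IsScalarTower k F L]
  [Algebra A F] [IsScalarTower A k F] [IsScalarTower A F L] [IsGalois k F]

attribute [local instance] algBC

/-- decomposition groups of a Galois subfield are images of decomposition groups -/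
theorem stab_le_map' (N : Subgroup (L ≃ₐ[k] L)) [hNF : IsGaloisGroup N F L]
    (hN : N ≤ (AlgEquiv.restrictNormalHom F : (L ≃ₐ[k] L) →* (F ≃ₐ[k] F)).ker)
    (P' : Ideal (integralClosure A F)) [hP' : P'.IsPrime]
    (P : Ideal (integralClosure A L)) [hP : P.IsPrime] [hPP : P.LiesOver P'] :
    MulAction.stabilizer (F ≃ₐ[k] F) P' ≤
      (MulAction.stabilizer (L ≃ₐ[k] L) P).map (AlgEquiv.restrictNormalHom F) := by
  have hkF : FiniteDimensional k F := FiniteDimensional.left k F L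
  obtain ⟨hC1, hC2, hC3, hC4⟩ := ic_facts k L A
  obtain ⟨hB1, hB2, hB3, hB4⟩ := ic_facts k F A
  have hT1 := tower_ABC A F L
  have hT2 := tower_BCL A F L
  have hint : Algebra.IsIntegral (integralClosure A F) (integralClosure A L) :=
    Algebra.IsIntegral.tower_top A
  have hNI : IsGaloisGroup N (integralClosure A F) (integralClosure A L) :=
    IsGaloisGroup.of_isFractionRing N (integralClosure A F) (integralClosure A L) F L
  intro g' hg'
  obtain ⟨g, hg⟩ := AlgEquiv.restrictNormalHom_surjective L g'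
  have hu : (g • P).under (integralClosure A F) = P.under (integralClosure A F) := by
    rw [← Ideal.over_def P P']
    ext x
    rw [Ideal.mem_comap, Ideal.mem_pointwise_smul_iff_inv_smul_mem, algebraMap_restrict' F,
      map_inv]
    have h1 : (algebraMap (integralClosure A F) (integralClosure A L)
        (((AlgEquiv.restrictNormalHom F g : F ≃ₐ[k] F))⁻¹ • x) ∈ P) ↔
        ((AlgEquiv.restrictNormalHom F g : F ≃ₐ[k] F))⁻¹ • x ∈ P' :=
      (Ideal.mem_of_liesOver P P' _).symm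
    rw [h1, hg, ← Ideal.mem_pointwise_smul_iff_inv_smul_mem,
      MulAction.mem_stabilizer_iff.1 hg']
  obtain ⟨h, hh⟩ := Algebra.IsInvariant.exists_smul_of_under_eq (integralClosure A F)
    (integralClosure A L) N (g • P) P hu
  refine ⟨(h : L ≃ₐ[k] L) * g, ?_, ?_⟩
  · rw [SetLike.mem_coe, MulAction.mem_stabilizer_iff, mul_smul]
    exact hh.symm
  · rw [map_mul, hg, MonoidHom.mem_ker.1 (hN h.2), one_mul]

theorem field_cyc (N : Subgroup (L ≃ₐ[k] L)) [hNF : IsGaloisGroup N F L]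
    (hN : (AlgEquiv.restrictNormalHom F : (L ≃ₐ[k] L) →* (F ≃ₐ[k] F)).ker = N) {E : ℕ}
    (hL : Lifts E (AlgEquiv.restrictNormalHom F : (L ≃ₐ[k] L) →* (F ≃ₐ[k] F)))
    {ℓ : ℕ} (hℓ : ℓ.Prime) (hdiv : ℓ ∣ Nat.card (F ≃ₐ[k] F) → ℓ ∣ E)
    (P' : Ideal (integralClosure A F)) [hP' : P'.IsMaximal] (hP'0 : P' ≠ ⊥)
    [hfin : Finite (A ⧸ P'.under A)] (hℓP' : (ℓ : integralClosure A F) ∉ P')
    (Q : Subgroup (F ≃ₐ[k] F)) (hQ : Q ≤ MulAction.stabilizer (F ≃ₐ[k] F) P')
    (hQℓ : IsPGroup ℓ Q) : IsCyclic Q := by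
  have hkF : FiniteDimensional k F := FiniteDimensional.left k F L
  obtain ⟨hC1, hC2, hC3, hC4⟩ := ic_facts k L A
  obtain ⟨hB1, hB2, hB3, hB4⟩ := ic_facts k F A
  have hGC := ic_galois k L A
  have hGB := ic_galois k F A
  have hT1 := tower_ABC A F L
  have hT2 := tower_BCL A F L
  have hm : (P'.under A).IsMaximal := inferInstance
  have hPu : P'.LiesOver (P'.under A) := ⟨rfl⟩
  have hint : Algebra.IsIntegral (integralClosure A F) (integralClosure A L) :=
    Algebra.IsIntegral.tower_top A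
  have hBCinj : Function.Injective
      (algebraMap (integralClosure A F) (integralClosure A L)) := by
    intro x y h
    have h1 := congrArg Subtype.val h
    rw [algBC_apply, algBC_apply] at h1
    exact Subtype.ext ((algebraMap F L).injective h1)
  have hBCf : FaithfulSMul (integralClosure A F) (integralClosure A L) :=
      (faithfulSMul_iff_algebraMap_injective _ _).2 hBCinj
  obtain ⟨P, hP, hPP⟩ : ∃ P : Ideal (integralClosure A L), P.IsPrime ∧ P.LiesOver P' := by
    obtain ⟨⟨P, h1, h2⟩⟩ := (inferInstance : Nonempty (P'.primesOver (integralClosure A L)))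
    exact ⟨P, h1, h2⟩
  have hPm : P.IsMaximal := Ideal.IsMaximal.of_liesOver_isMaximal P P'
  have hPu2 : P.LiesOver (P'.under A) := Ideal.LiesOver.trans P P' (P'.under A)
  have hP0 : P ≠ ⊥ := by
    rintro rfl
    apply hP'0
    rw [Ideal.over_def (⊥ : Ideal (integralClosure A L)) P', eq_bot_iff]
    intro x hx
    have h1 : algebraMap (integralClosure A F) (integralClosure A L) x = 0 := hx
    exact (map_eq_zero_iff _ hBCinj).1 h1
  have hℓP : (ℓ : integralClosure A L) ∉ P := by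
    intro h
    apply hℓP'
    rw [Ideal.mem_of_liesOver P P']
    simpa using h
  have hfC : Finite (integralClosure A L ⧸ P) := by
    have h1 : Module.Finite (A ⧸ P'.under A) (integralClosure A L ⧸ P) :=
      Module.Finite.of_restrictScalars_finite A _ _
    exact Module.finite_of_finite (A ⧸ P'.under A)
  have hfG : FaithfulSMul (L ≃ₐ[k] L) (integralClosure A L) := IsGaloisGroup.faithful A
  have hfℓ : Fact ℓ.Prime := ⟨hℓ⟩
  by_cases htriv : Subsingleton Q
  · exact isCyclic_of_subsingleton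
  have hQnt : Nontrivial Q := not_subsingleton_iff_nontrivial.1 htriv
  obtain ⟨n, hn, hn1⟩ := (hQℓ.nontrivial_iff_card).1 hQnt
  have hℓH : ℓ ∣ Nat.card (F ≃ₐ[k] F) := by
    refine dvd_trans ?_ (Subgroup.card_subgroup_dvd_card Q)
    rw [hn1]
    exact dvd_pow_self _ hn.ne'
  have hle := hQ.trans (stab_le_map' F N (by rw [← hN]) P' P)
  refine core_cyc (AlgEquiv.restrictNormalHom F : (L ≃ₐ[k] L) →* (F ≃ₐ[k] F)) hL
    (MulAction.stabilizer (L ≃ₐ[k] L) P) (P.inertia (L ≃ₐ[k] L)) (Wd P)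
    ?_ (hdiv hℓH) (Wd_cop' P hℓ hℓP) (stab_cyc' P (P'.under A))
    (inertia_cyc P hP0) Q hle hQℓ
  intro d hd x hx y
  have h1 : (d * x * d⁻¹) • y - y = d • (x • (d⁻¹ • y) - d⁻¹ • y) := by
    rw [smul_sub, smul_inv_smul, mul_smul, mul_smul]
  rw [h1]
  exact smul_mem_of_stab hd (hx _)

end main

section real

theorem field_real {k F L : Type} [Field k] [Field F] [Field L] [Algebra k L] [Algebra k F]
    [Algebra F L] [IsScalarTower k F L] [FiniteDimensional k L] [IsGalois k L] [Normal k F]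
    (h : ∀ x : L ≃ₐ[k] L, x ^ 2 = 1 → (AlgEquiv.restrictNormalHom F x : F ≃ₐ[k] F) = 1)
    (Ω : Type) [Field Ω] [IsAlgClosed Ω] (φ : F →+* Ω) (c : Ω →+* Ω) (hc : ∀ x, c (c x) = x)
    (hk : ∀ x : k, c (φ (algebraMap k F x)) = φ (algebraMap k F x)) (x : F) :
    c (φ x) = φ x := by
  let a1 : Algebra F Ω := φ.toAlgebra
  have hfin : FiniteDimensional F L := FiniteDimensional.right k F L
  let ψ : L →ₐ[F] Ω := IsAlgClosed.lift
  let a2 : Algebra L Ω := ψ.toRingHom.toAlgebra
  let a3 : Algebra k Ω := (φ.comp (algebraMap k F)).toAlgebra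
  have t1 : IsScalarTower F L Ω := IsScalarTower.of_algebraMap_eq fun x => (ψ.commutes x).symm
  have t2 : IsScalarTower k F Ω := IsScalarTower.of_algebraMap_eq fun x => rfl
  have t3 : IsScalarTower k L Ω := IsScalarTower.of_algebraMap_eq fun x => by
    rw [IsScalarTower.algebraMap_apply k F L, ← IsScalarTower.algebraMap_apply F L Ω,
      ← IsScalarTower.algebraMap_apply k F Ω]
  let c' : Ω →ₐ[k] Ω := { c with commutes' := hk }
  let e : Ω ≃ₐ[k] Ω := AlgEquiv.ofAlgHom c' c' (AlgHom.ext hc) (AlgHom.ext hc)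
  let σ : L ≃ₐ[k] L := e.restrictNormal L
  have hσ : ∀ y : L, algebraMap L Ω (σ y) = c (algebraMap L Ω y) := fun y =>
    AlgEquiv.restrictNormal_commutes e L y
  have h2 : σ ^ 2 = 1 := by
    ext y
    apply (algebraMap L Ω).injective
    rw [sq, AlgEquiv.mul_apply, hσ, hσ, hc]
    rfl
  have h3 := h _ h2
  have h4 : σ (algebraMap F L x) = algebraMap F L x := by
    have := AlgEquiv.restrictNormal_commutes σ F x
    rw [← this]
    congr 1
    exact DFunLike.congr_fun h3 x
  have h5 : φ x = algebraMap L Ω (algebraMap F L x) := (ψ.commutes x).symm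
  rw [h5, ← hσ, h4]

end real

end Pool.Agent.R768.SG
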