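import Pool.Agent.R768.SG.Tame

/-!
# Roots of unity in the residue fields
-/

set_option autoImplicit false

open scoped Pointwise

namespace Pool.Agent.R768.SG

open Pool.Agent.R768.IG

/-- an element which is fixed by all automorphisms fixing `y` is a polynomial in `y` -/
theorem mem_adjoin_of_fixed {κ E : Type*} [Field κ] [Field E] [Algebra κ E]
    [FiniteDimensional κ E] [IsGalois κ E] {x y : E}
    (h : ∀ σ : E ≃ₐ[κ] E, σ y = y → σ x = x) : ∃ g : Polynomial κ, Polynomial.aeval y g = x := by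
  have h1 : x ∈ IntermediateField.fixedField (IntermediateField.adjoin κ {y}).fixingSubgroup := by
    rw [IntermediateField.mem_fixedField_iff]
    intro σ hσ
    apply h
    rw [IntermediateField.mem_fixingSubgroup_iff] at hσ
    exact hσ y (IntermediateField.mem_adjoin_simple_self κ y)
  rw [IsGalois.fixedField_fixingSubgroup] at h1
  have h2 : x ∈ (IntermediateField.adjoin κ {y}).toSubalgebra := h1
  rw [IntermediateField.adjoin_simple_toSubalgebra_of_isAlgebraic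
    (Algebra.IsAlgebraic.isAlgebraic y), Algebra.adjoin_singleton_eq_range_aeval] at h2
  obtain ⟨g, hg⟩ := h2
  exact ⟨g, hg⟩

section

variable {A C G : Type} [CommRing A] [CommRing C] [Algebra A C]
  [Group G] [Finite G] [MulSemiringAction G C] [hG : IsGaloisGroup G A C]

attribute [local instance] Ideal.Quotient.field in
/-- If `χ` is the tame character and all `σ` in the decomposition group which fix the `ℓ`-th roots
of unity act on `τ` as on the roots of unity, then the root of unity lies in the field generated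
by its power. -/
theorem residue_root (𝔪 : Ideal A) [𝔪.IsMaximal] [PerfectField 𝔪.ResidueField] (P : Ideal C)
    [P.IsMaximal] [P.LiesOver 𝔪] (z : C ⧸ P) (n : ℕ)
    (h : ∀ σ ∈ MulAction.stabilizer G P, ∀ c : C, Ideal.Quotient.mk P c = z →
      σ • c ^ n - c ^ n ∈ P → σ • c - c ∈ P) :
    ∃ g : Polynomial A, Polynomial.aeval (z ^ n) g = z := by
  have hpf : PerfectField (A ⧸ 𝔪) :=
    PerfectField.of_ringEquiv (RingEquiv.ofBijective _
      (Ideal.bijective_algebraMap_quotient_residueField 𝔪)).symm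
  have hnorm : Normal (A ⧸ 𝔪) (C ⧸ P) := Ideal.Quotient.normal G 𝔪 P
  have hsep : Algebra.IsSeparable (A ⧸ 𝔪) (C ⧸ P) := inferInstance
  have hfin : Module.Finite (A ⧸ 𝔪) (C ⧸ P) := Ideal.Quotient.finite_of_isInvariant G 𝔪 P
  have hgal : IsGalois (A ⧸ 𝔪) (C ⧸ P) := ⟨⟩
  obtain ⟨c, rfl⟩ := Ideal.Quotient.mk_surjective z
  obtain ⟨g, hg⟩ := mem_adjoin_of_fixed (κ := A ⧸ 𝔪) (E := C ⧸ P)
    (x := Ideal.Quotient.mk P c) (y := (Ideal.Quotient.mk P c) ^ n) (by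
      intro σ' hσ'
      obtain ⟨σ, rfl⟩ := Ideal.Quotient.stabilizerHom_surjective G 𝔪 P σ'
      have h1 : ∀ x : C, (Ideal.Quotient.stabilizerHom P 𝔪 G σ) (Ideal.Quotient.mk P x) =
          Ideal.Quotient.mk P ((σ : G) • x) := fun x => rfl
      rw [← map_pow, h1, Ideal.Quotient.eq] at hσ'
      rw [h1, Ideal.Quotient.eq]
      exact h σ σ.2 c rfl hσ')
  obtain ⟨g', rfl⟩ := Polynomial.map_surjective _ Ideal.Quotient.mk_surjective g
  refine ⟨g', ?_⟩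
  have h2 : algebraMap A (A ⧸ 𝔪) = Ideal.Quotient.mk 𝔪 := rfl
  rw [← h2, Polynomial.aeval_map_algebraMap] at hg
  exact hg

end

section main

variable {A B C G H : Type} [CommRing A] [CommRing B] [IsDedekindDomain B] [CommRing C]
  [IsDedekindDomain C] [Algebra A B] [Algebra A C] [Algebra B C] [IsScalarTower A B C]
  [Group G] [Finite G] [MulSemiringAction G C] [hG : IsGaloisGroup G A C]
  [Group H] [Finite H] [MulSemiringAction H B] [hH : IsGaloisGroup H A B]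

/-- the residue field of `P` contains a primitive root of unity of order `ℓ ^ (M + 1)` which lies
in the field generated by its power with exponent `ℓ ^ M` over the residue field of the base -/
def RootAt (A : Type) {B : Type} [CommRing A] [CommRing B] [Algebra A B] (M ℓ : ℕ)
    (P : Ideal B) : Prop :=
  ∃ ζ : B ⧸ P, IsPrimitiveRoot ζ (ℓ ^ (M + 1)) ∧ ζ ∈ Algebra.adjoin A {ζ ^ ℓ ^ M}

theorem root_at (r : G →* H) (hequiv : ∀ (g : G) (b : B), g • algebraMap B C b =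
      algebraMap B C (r g • b)) {E M ℓ j : ℕ} (hE : 0 < E) (hL : Lifts E r) (hℓ : ℓ.Prime)
    (hM : ℓ ^ M ∣ E) (𝔪 : Ideal A) [𝔪.IsMaximal] [PerfectField 𝔪.ResidueField]
    (P' : Ideal B) [hP'm : P'.IsMaximal] (hP'0 : P' ≠ ⊥)
    (P : Ideal C) [hPm : P.IsMaximal] [P.LiesOver 𝔪] [hPP : P.LiesOver P']
    (hP0 : P ≠ ⊥) (hℓP : (ℓ : C) ∉ P) {τ : G} (hτ : τ ∈ P.inertia G) (hj : τ ^ ℓ ^ j = 1)
    (hτ1 : r τ ≠ 1) : RootAt A M ℓ P' := by
  have hfG : FaithfulSMul G C := IsGaloisGroup.faithful A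
  have hfH : FaithfulSMul H B := IsGaloisGroup.faithful A
  have hPp : P.IsPrime := hPm.isPrime
  have hP'p : P'.IsPrime := hP'm.isPrime
  have hℓP' : (ℓ : B) ∉ P' := by
    intro h
    apply hℓP
    have h1 := (Ideal.mem_of_liesOver P P' (ℓ : B)).1 h
    simpa using h1
  have hdom : IsDomain (C ⧸ P) := Ideal.Quotient.isDomain P
  have hdom' : IsDomain (B ⧸ P') := Ideal.Quotient.isDomain P'
  -- the tame character of `C`
  obtain ⟨f, hf, hfc⟩ := exists_tame_char' (Γ := G) P hP0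
  set z₀ : (C ⧸ P)ˣ := f ⟨τ, hτ⟩ with hz₀
  have hτD := Ideal.inertia_le_stabilizer P hτ
  have hW := Wd_cop' (Γ := G) P hℓ hℓP
  have hnorm : ∀ d ∈ MulAction.stabilizer G P, ∀ w ∈ Wd (Γ := G) P, d * w * d⁻¹ ∈
      Wd (Γ := G) P := fun d hd w hw => Wd_norm P hd hw
  -- the order of `z₀` is the order of `τ`
  have hord : orderOf z₀ = orderOf τ := by
    apply Nat.dvd_antisymm
    · have h1 : orderOf (⟨τ, hτ⟩ : P.inertia G) = orderOf τ := Subgroup.orderOf_mk τ hτ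
      rw [← h1]
      exact orderOf_map_dvd f _
    · apply orderOf_dvd_of_pow_eq_one
      have h1 : f (⟨τ, hτ⟩ ^ orderOf z₀) = 1 := by
        rw [map_pow, ← hz₀, pow_orderOf_eq_one]
      have h2 : τ ^ orderOf z₀ ∈ Wd (Γ := G) P := hf _ h1
      refine Wd_torsion' P h2 (n := ℓ ^ j) (pow_notMem P hℓP j) ?_
      rw [← pow_mul, mul_comm, pow_mul, hj, one_pow]
  have hb1 := (core_u r hE hL (MulAction.stabilizer G P) (Wd P) hnorm hℓ hW
    (one_mem _) hτD (q := 1) le_rfl (by simp) (by simp) hj hτ1 hM).2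
  obtain ⟨b, hbj, hb⟩ := (Nat.dvd_prime_pow hℓ).1 (orderOf_dvd_of_pow_eq_one hj)
  have hMb : M + 1 ≤ b := by
    rw [hb] at hb1
    exact (Nat.pow_dvd_pow_iff_le_right hℓ.one_lt).1 hb1
  have hz₀p : IsPrimitiveRoot ((z₀ : (C ⧸ P)ˣ) : C ⧸ P) (ℓ ^ b) := by
    rw [← hb, ← hord, ← orderOf_units]
    exact IsPrimitiveRoot.orderOf _
  -- the root of unity
  set z : C ⧸ P := (z₀ : C ⧸ P) ^ ℓ ^ (b - (M + 1)) with hz
  have hzp : IsPrimitiveRoot z (ℓ ^ (M + 1)) := by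
    apply hz₀p.pow (pow_pos hℓ.pos _)
    rw [← pow_add]; congr 1; omega
  have hfix : ∀ σ ∈ MulAction.stabilizer G P, ∀ c : C, Ideal.Quotient.mk P c = z →
      σ • c ^ ℓ ^ M - c ^ ℓ ^ M ∈ P → σ • c - c ∈ P := by
    intro σ hσ c hc hcP
    obtain ⟨c₀, hc₀, hc₀P⟩ := hfc ⟨τ, hτ⟩
    rw [← hz₀] at hc₀
    -- the action of `σ` on `z₀`
    let σ' : (C ⧸ P) ≃ₐ[A ⧸ 𝔪] (C ⧸ P) := Ideal.Quotient.stabilizerHom P 𝔪 G ⟨σ, hσ⟩
    have hσ' : ∀ x : C, σ' (Ideal.Quotient.mk P x) = Ideal.Quotient.mk P (σ • x) := fun x => rfl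
    have h1 : (σ' (z₀ : C ⧸ P)) ^ ℓ ^ b = 1 := by
      rw [← map_pow, hz₀p.pow_eq_one, map_one]
    have : NeZero (ℓ ^ b) := ⟨(pow_pos hℓ.pos _).ne'⟩
    obtain ⟨u, -, hu⟩ := hz₀p.eq_pow_of_pow_eq_one h1
    -- we may take `1 ≤ u`
    obtain ⟨u, hu1, hu⟩ : ∃ u : ℕ, 1 ≤ u ∧ (z₀ : C ⧸ P) ^ u = σ' (z₀ : C ⧸ P) := by
      refine ⟨u + ℓ ^ b, ?_, ?_⟩
      · have := pow_pos hℓ.pos b
        omega
      · rw [pow_add, hz₀p.pow_eq_one, mul_one, hu]
    have hzu : σ' z = z ^ u := by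
      rw [hz, map_pow, ← hu, ← pow_mul, ← pow_mul, mul_comm]
    have h2 : z ^ (ℓ ^ M * u) = z ^ ℓ ^ M := by
      rw [mul_comm, pow_mul, ← hzu, ← map_pow, ← hc, ← map_pow, hσ', Ideal.Quotient.eq]
      exact hcP
    have h3 : ℓ ^ M * u ≡ ℓ ^ M [MOD ℓ ^ (M + 1)] := by
      have e1 : (z₀ ^ ℓ ^ (b - (M + 1))) ^ (ℓ ^ M * u) = (z₀ ^ ℓ ^ (b - (M + 1))) ^ ℓ ^ M := by
        apply Units.ext
        rw [Units.val_pow_eq_pow_val, Units.val_pow_eq_pow_val _ (ℓ ^ M),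
          Units.val_pow_eq_pow_val, ← hz]
        exact h2
      rw [pow_eq_pow_iff_modEq] at e1
      have e2 : orderOf (z₀ ^ ℓ ^ (b - (M + 1))) = ℓ ^ (M + 1) := by
        rw [← orderOf_units, Units.val_pow_eq_pow_val, ← hz]
        exact hzp.eq_orderOf.symm
      rwa [e2] at e1
    have h4 : ℓ ∣ u - 1 := by
      have h5 : ℓ ^ (M + 1) ∣ ℓ ^ M * u - ℓ ^ M :=
        (Nat.modEq_iff_dvd' (Nat.le_mul_of_pos_right _ (by omega))).1 h3.symm
      have h6 : ℓ ^ M * u - ℓ ^ M = ℓ ^ M * (u - 1) := by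
        rw [Nat.mul_sub, mul_one]
      rw [h6, pow_succ] at h5
      exact Nat.dvd_of_mul_dvd_mul_left (pow_pos hℓ.pos _) h5
    have h5 : σ • c₀ - c₀ ^ u ∈ P := by
      rw [← Ideal.Quotient.eq, map_pow, ← hσ', ← hc₀, hu]
    have h6 := (core_u r hE hL (MulAction.stabilizer G P) (Wd P) hnorm hℓ hW
      hσ hτD hu1 h4 (conj_tame P hτ hc₀P hσ h5) hj hτ1 hM).1
    obtain ⟨k, hk⟩ := h6
    have h7 : u = ℓ ^ (M + 1) * k + 1 := by omega
    rw [← Ideal.Quotient.eq, ← hσ', hc, hzu, h7, pow_succ, pow_mul, hzp.pow_eq_one, one_pow,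
      one_mul]
  obtain ⟨g, hg⟩ := residue_root (G := G) 𝔪 P z (ℓ ^ M) hfix
  -- an `ℓ`-th root of unity in the residue field of `P'`
  obtain ⟨f', hf', -⟩ := exists_tame_char' (Γ := H) P' hP'0
  have hrτ : r τ ∈ P'.inertia H := by
    intro x
    rw [Submodule.mem_toAddSubgroup, Ideal.mem_of_liesOver P P', map_sub, ← hequiv]
    exact hτ _
  have hjr : (r τ) ^ ℓ ^ j = 1 := by rw [← map_pow, hj, map_one]
  have h1 : f' ⟨r τ, hrτ⟩ ≠ 1 := by
    intro h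
    refine hτ1 (Wd_torsion' P' (hf' _ h) (n := ℓ ^ j) (pow_notMem P' hℓP' j) hjr)
  have h2 : (f' ⟨r τ, hrτ⟩) ^ ℓ ^ j = 1 := by
    rw [← map_pow]
    have : (⟨r τ, hrτ⟩ : P'.inertia H) ^ ℓ ^ j = 1 := Subtype.ext hjr
    rw [this, map_one]
  have h3 : ℓ ∣ orderOf (f' ⟨r τ, hrτ⟩) := ell_dvd_order hℓ h2 h1
  obtain ⟨k, hk⟩ := h3
  let w : B ⧸ P' := ((f' ⟨r τ, hrτ⟩ : (B ⧸ P')ˣ) : B ⧸ P') ^ k
  have hwp : IsPrimitiveRoot w ℓ := by
    have h4 : IsPrimitiveRoot ((f' ⟨r τ, hrτ⟩ : (B ⧸ P')ˣ) : B ⧸ P')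
        (orderOf (f' ⟨r τ, hrτ⟩)) := by
      rw [← orderOf_units]
      exact IsPrimitiveRoot.orderOf _
    refine h4.pow ?_ (by rw [hk, mul_comm])
    exact orderOf_pos_iff.2 (isOfFinOrder_iff_pow_eq_one.2 ⟨ℓ ^ j, pow_pos hℓ.pos _, h2⟩)
  let ι : (B ⧸ P') →ₐ[A] (C ⧸ P) :=
    Ideal.quotientMapₐ P (IsScalarTower.toAlgHom A B C) (by
      intro x hx
      exact (Ideal.mem_of_liesOver P P' x).1 hx)
  have hιinj : Function.Injective ι := by
    let _ : Field (B ⧸ P') := Ideal.Quotient.field P'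
    exact ι.toRingHom.injective
  have hwι : IsPrimitiveRoot (ι w) ℓ := hwp.map_of_injective hιinj
  have hzℓ : (z ^ ℓ ^ M) ^ ℓ = 1 := by
    rw [← pow_mul, ← pow_succ, hzp.pow_eq_one]
  have : NeZero ℓ := ⟨hℓ.ne_zero⟩
  obtain ⟨i, -, hi⟩ := hwι.eq_pow_of_pow_eq_one hzℓ
  let y : B ⧸ P' := w ^ i
  have hy : ι y = z ^ ℓ ^ M := by rw [← hi, map_pow]
  let ζ : B ⧸ P' := Polynomial.aeval y g
  have hζ : ι ζ = z := by
    rw [← hg, ← hy]
    exact (Polynomial.aeval_algHom_apply ι y g).symm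
  have hζy : ζ ^ ℓ ^ M = y := by
    apply hιinj
    rw [map_pow, hζ, hy]
  refine ⟨ζ, ?_, ?_⟩
  · apply IsPrimitiveRoot.of_map_of_injective (f := ι) _ hιinj
    rw [hζ]; exact hzp
  · rw [hζy, Algebra.adjoin_singleton_eq_range_aeval]
    exact ⟨g, rfl⟩

end main

end Pool.Agent.R768.SG
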