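import Pool.Agent.R768.IG.Core
import Pool.Agent.R768.IG.Inert
import Pool.Agent.R768.IG.Cyc

/-!
# Wild and tame inertia at a maximal ideal with a general residue field
-/

set_option autoImplicit false

open scoped Pointwise

namespace Pool.Agent.R768.SG

open Pool.Agent.R768.IG

section

variable {S Γ : Type*} [CommRing S] [Group Γ] [MulSemiringAction Γ S] (P : Ideal S)

theorem Wd_step' [hPm : P.IsMaximal] {w : Γ} (hw : w ∈ Wd (Γ := Γ) P) {n : ℕ}
    (hn : (n : S) ∉ P) (hwn : w ^ n = 1) (i : ℕ) : ∀ x : S, w • x - x ∈ P ^ i := by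
  obtain ⟨y, z, hz, hyz⟩ := hPm.exists_inv hn
  induction i with
  | zero => intro x; simp
  | succ i ih =>
    intro x
    set δ := w • x - x with hδ
    have h1 : ∀ k : ℕ, w ^ k • x - x - (k : S) * δ ∈ P ^ (i + 1) := by
      intro k
      induction k with
      | zero => simp
      | succ k ihk =>
        have h2 : w ^ (k + 1) • x - x - ((k + 1 : ℕ) : S) * δ
            = (w • (w ^ k • x - x) - (w ^ k • x - x)) + (w ^ k • x - x - (k : S) * δ) := by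
          rw [pow_succ', mul_smul, smul_sub, hδ]
          push_cast
          ring
        rw [h2]
        refine add_mem ?_ ihk
        apply Wd_pow P hw i
        have h3 : w ^ k • x - x = (w ^ k • x - x - (k : S) * δ) + (k : S) * δ := by ring
        rw [h3]
        refine add_mem (Ideal.pow_le_pow_right (Nat.le_succ i) ihk) ?_
        exact Ideal.mul_mem_left _ _ (ih x)
    have h2 := h1 n
    rw [hwn, one_smul, sub_self, zero_sub] at h2
    have h3 : (n : S) * δ ∈ P ^ (i + 1) := by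
      simpa using neg_mem h2
    obtain ⟨c, hc⟩ := sub_dvd_pow_sub_pow (1 : S) z (i + 1)
    have h5 : δ = (c * y) * ((n : S) * δ) + δ * z ^ (i + 1) := by
      rw [one_pow] at hc
      linear_combination δ * hc - δ * c * hyz
    rw [h5]
    exact add_mem (Ideal.mul_mem_left _ _ h3) (Ideal.mul_mem_left _ _ (Ideal.pow_mem_pow hz _))

theorem Wd_torsion' [IsDomain S] [IsNoetherianRing S] [FaithfulSMul Γ S] [hPm : P.IsMaximal]
    {w : Γ} (hw : w ∈ Wd (Γ := Γ) P) {n : ℕ} (hn : (n : S) ∉ P) (hwn : w ^ n = 1) : w = 1 := by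
  apply FaithfulSMul.eq_of_smul_eq_smul (α := S)
  intro x
  rw [one_smul]
  have h1 : w • x - x ∈ (⨅ i : ℕ, P ^ i : Ideal S) := by
    rw [Ideal.mem_iInf]
    intro i
    exact Wd_step' P hw hn hwn i x
  rw [Ideal.iInf_pow_eq_bot_of_isDomain P hPm.ne_top] at h1
  exact sub_eq_zero.1 ((Ideal.mem_bot).1 h1)

theorem pow_notMem [hP : P.IsPrime] {ℓ : ℕ} (hℓ : (ℓ : S) ∉ P) (j : ℕ) :
    ((ℓ ^ j : ℕ) : S) ∉ P := by
  intro h
  rw [Nat.cast_pow] at h
  exact hℓ (hP.mem_of_pow_mem j h)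

theorem Wd_cop' [Finite Γ] [IsDomain S] [IsNoetherianRing S] [FaithfulSMul Γ S] [P.IsMaximal]
    {ℓ : ℕ} (hℓ : ℓ.Prime) (hℓP : (ℓ : S) ∉ P) :
    ∀ w ∈ Wd (Γ := Γ) P, ∃ n, Nat.Coprime n ℓ ∧ w ^ n = 1 := by
  intro w hw
  obtain ⟨i, n', hn', hi⟩ := Nat.exists_eq_pow_mul_and_not_dvd (orderOf_pos w).ne' ℓ hℓ.ne_one
  refine ⟨n', ((Nat.Prime.coprime_iff_not_dvd hℓ).2 hn').symm, ?_⟩
  apply Wd_torsion' P (pow_mem hw n') (n := ℓ ^ i) (pow_notMem P hℓP i)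
  rw [← pow_mul, mul_comm, ← hi, pow_orderOf_eq_one]

end

section Dedekind

variable {S Γ : Type*} [CommRing S] [IsDedekindDomain S] [Group Γ] [MulSemiringAction Γ S]
  (P : Ideal S)

/-- The relation of an element of the decomposition group with the tame inertia group. -/
theorem conj_tame [P.IsPrime] {τ : Γ} (hτ : τ ∈ P.inertia Γ) {c : S}
    (hc : ∀ x ∈ P, τ • x - c * x ∈ P ^ 2) {σ : Γ}
    (hσ : σ ∈ MulAction.stabilizer Γ P) {q : ℕ} (hfr : σ • c - c ^ q ∈ P) :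
    σ * τ * σ⁻¹ * (τ ^ q)⁻¹ ∈ Wd (Γ := Γ) P := by
  have hst : τ ∈ MulAction.stabilizer Γ P := Ideal.inertia_le_stabilizer P hτ
  have hσ' : σ⁻¹ ∈ MulAction.stabilizer Γ P := inv_mem hσ
  have hI : σ * τ * σ⁻¹ ∈ P.inertia Γ := by
    intro x
    have h1 : (σ * τ * σ⁻¹) • x - x = σ • (τ • (σ⁻¹ • x) - σ⁻¹ • x) := by
      rw [smul_sub, smul_inv_smul, mul_smul, mul_smul]
    rw [h1]
    exact smul_mem_of_stab hσ (hτ _)
  have hpow : τ ^ q ∈ P.inertia Γ := pow_mem hτ q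
  have hpow' : (τ ^ q)⁻¹ ∈ P.inertia Γ := inv_mem hpow
  refine ⟨mul_mem hI hpow', fun x hx => ?_⟩
  have hk : ∀ (k : ℕ), ∀ y ∈ P, τ ^ k • y - c ^ k * y ∈ P ^ 2 := by
    intro k
    induction k with
    | zero => intro y _; simp
    | succ k ih =>
      intro y hy
      have h1 : τ ^ (k + 1) • y - c ^ (k + 1) * y =
          (τ ^ k • (τ • y) - c ^ k * (τ • y)) + c ^ k * (τ • y - c * y) := by
        rw [pow_succ τ, mul_smul]; ring
      rw [h1]
      exact add_mem (ih _ (smul_mem_of_stab hst hy)) (Ideal.mul_mem_left _ _ (hc y hy))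
  have h2 : ∀ y ∈ P, (σ * τ * σ⁻¹) • y - c ^ q * y ∈ P ^ 2 := by
    intro y hy
    have h1 : (σ * τ * σ⁻¹) • y - c ^ q * y =
        σ • (τ • (σ⁻¹ • y) - c * (σ⁻¹ • y)) + (σ • c - c ^ q) * y := by
      rw [smul_sub, smul_mul', smul_inv_smul, mul_smul, mul_smul]; ring
    rw [h1]
    refine add_mem (smul_pow_mem_of_stab hσ 2 (hc _ (smul_mem_of_stab hσ' hy))) ?_
    rw [sq]
    exact Ideal.mul_mem_mul hfr hy
  set y := (τ ^ q)⁻¹ • x with hy
  have hyP : y ∈ P := smul_mem_of_stab (Ideal.inertia_le_stabilizer P hpow') hx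
  have h3 : x = τ ^ q • y := by rw [hy, smul_inv_smul]
  have h4 : (σ * τ * σ⁻¹ * (τ ^ q)⁻¹) • x - x =
      ((σ * τ * σ⁻¹) • y - c ^ q * y) - (τ ^ q • y - c ^ q * y) := by
    rw [mul_smul, ← hy, ← h3]; ring
  rw [h4]
  exact sub_mem (h2 y hyP) (hk q y hyP)

/-- the character of the tame inertia group, with its description by scalars -/
theorem exists_tame_char' [P.IsPrime] (hP : P ≠ ⊥) :
    ∃ f : P.inertia Γ →* (S ⧸ P)ˣ, (∀ τ, f τ = 1 → (τ : Γ) ∈ Wd (Γ := Γ) P) ∧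
      ∀ τ : P.inertia Γ, ∃ c : S, ((f τ : (S ⧸ P)ˣ) : S ⧸ P) = Ideal.Quotient.mk P c ∧
        ∀ x ∈ P, (τ : Γ) • x - c * x ∈ P ^ 2 := by
  choose c hc using fun τ : P.inertia Γ => exists_scalar P hP τ.2
  let g : P.inertia Γ →* S ⧸ P :=
    { toFun := fun τ => Ideal.Quotient.mk P (c τ)
      map_one' := by
        rw [← map_one (Ideal.Quotient.mk P), Ideal.Quotient.eq]
        apply scalar_unique P hP (fun x => x)
        · intro x hx
          have := hc 1 x hx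
          rw [Subgroup.coe_one, one_smul] at this
          exact this
        · intro x _
          simp
      map_mul' := by
        intro τ τ'
        rw [← map_mul, Ideal.Quotient.eq]
        apply scalar_unique P hP (fun x => ((τ * τ' : P.inertia Γ) : Γ) • x)
        · intro x hx
          exact hc _ x hx
        · intro x hx
          have hx' : (τ' : Γ) • x ∈ P :=
            smul_mem_of_stab (Ideal.inertia_le_stabilizer P τ'.2) hx
          have e : ((τ * τ' : P.inertia Γ) : Γ) • x - c τ * c τ' * x =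
              ((τ : Γ) • ((τ' : Γ) • x) - c τ * ((τ' : Γ) • x)) +
                c τ * ((τ' : Γ) • x - c τ' * x) := by
            rw [Subgroup.coe_mul, mul_smul]; ring
          rw [e]
          exact add_mem (hc τ _ hx') (Ideal.mul_mem_left _ _ (hc τ' x hx)) }
  refine ⟨g.toHomUnits, fun τ hτ => ?_, fun τ => ⟨c τ, ?_, hc τ⟩⟩
  · have h1 : g τ = 1 := by
      have := congrArg Units.val hτ
      rwa [MonoidHom.coe_toHomUnits, Units.val_one] at this
    have h2 : c τ - 1 ∈ P := by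
      rw [← Ideal.Quotient.eq, map_one]; exact h1
    rw [mem_Wd]
    refine ⟨τ.2, fun x hx => ?_⟩
    have e : (τ : Γ) • x - x = ((τ : Γ) • x - c τ * x) + (c τ - 1) * x := by ring
    rw [e]
    refine add_mem (hc τ x hx) ?_
    rw [sq]
    exact Ideal.mul_mem_mul h2 hx
  · rw [MonoidHom.coe_toHomUnits]; rfl

end Dedekind

section core

/-- The main part of the group theory: if `s τ s⁻¹ = τ ^ u` modulo `W` and `ℓ` divides `u - 1`,
then `ℓ ^ (M + 1)` divides `u - 1`. -/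
theorem core_u {Γ H : Type} [Group Γ] [Group H] [Finite H] (r : Γ →* H) {E : ℕ} (hE : 0 < E)
    (hL : Lifts E r) (D W : Subgroup Γ)
    (hnorm : ∀ d ∈ D, ∀ w ∈ W, d * w * d⁻¹ ∈ W) {ℓ : ℕ} (hℓ : ℓ.Prime)
    (hW : ∀ w ∈ W, ∃ n, Nat.Coprime n ℓ ∧ w ^ n = 1) {s τ : Γ}
    (hsD : s ∈ D) (hτ : τ ∈ D) {q : ℕ} (hq1 : 1 ≤ q) (h3 : ℓ ∣ q - 1)
    (hrel2 : s * τ * s⁻¹ * (τ ^ q)⁻¹ ∈ W) {j : ℕ}
    (hj : τ ^ ℓ ^ j = 1) (hτ1 : r τ ≠ 1) {M : ℕ} (hM : ℓ ^ M ∣ E) :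
    ℓ ^ (M + 1) ∣ q - 1 ∧ ℓ ^ (M + 1) ∣ orderOf τ := by
  have hWr : ∀ w ∈ W.map r, ∃ n, Nat.Coprime n ℓ ∧ w ^ n = 1 := by
    rintro _ ⟨w, hw, rfl⟩
    obtain ⟨n, hn, hn1⟩ := hW w hw
    exact ⟨n, hn, by rw [← map_pow, hn1, map_one]⟩
  have hjr : (r τ) ^ ℓ ^ j = 1 := by rw [← map_pow, hj, map_one]
  let Q : Subgroup H := Subgroup.closure {r τ, r s} ⊔ W.map r
  have htQ : r τ ∈ Q := (le_sup_left : _ ≤ Q) (Subgroup.subset_closure (by simp))
  have hsQ : r s ∈ Q := (le_sup_left : _ ≤ Q) (Subgroup.subset_closure (by simp))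
  have hWQ : W.map r ≤ Q := le_sup_right
  let t' : Q := ⟨r τ, htQ⟩
  let s' : Q := ⟨r s, hsQ⟩
  let W' : Subgroup Q := (W.map r).subgroupOf Q
  have hW'n : W'.Normal := by
    rw [Subgroup.normal_subgroupOf_iff hWQ]
    have hQn : Q ≤ Subgroup.normalizer ((W.map r : Subgroup H) : Set H) := by
      refine sup_le ?_ Subgroup.le_normalizer
      rw [Subgroup.closure_le]
      intro x hx
      apply Subgroup.mem_normalizer_fintype
      rintro _ ⟨w, hw, rfl⟩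
      rcases hx with rfl | rfl
      · exact ⟨τ * w * τ⁻¹, hnorm τ hτ w hw, by simp⟩
      · exact ⟨s * w * s⁻¹, hnorm s hsD w hw, by simp⟩
    intro h k hh hk
    exact (Subgroup.mem_normalizer_iff.1 (hQn hk) h).1 hh
  have hgen : Subgroup.closure {t', s'} ⊔ W' = ⊤ := by
    have hinj : Function.Injective (Subgroup.map Q.subtype) :=
      Subgroup.map_injective Q.subtype_injective
    apply hinj
    rw [Subgroup.map_sup, MonoidHom.map_closure, Set.image_pair, Subgroup.subgroupOf_map_subtype,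
      inf_eq_left.2 hWQ, ← MonoidHom.range_eq_map, Subgroup.range_subtype]
    rfl
  have hW' : ∀ w ∈ W', ∃ n, Nat.Coprime n ℓ ∧ w ^ n = 1 := by
    intro w hw
    obtain ⟨n, hn, hn1⟩ := hWr w hw
    exact ⟨n, hn, Subtype.ext hn1⟩
  have hrel' : s' * t' * s'⁻¹ * (t' ^ q)⁻¹ ∈ W' := by
    refine ⟨_, hrel2, ?_⟩
    simp [s', t']
  have hj' : t' ^ ℓ ^ j = 1 := Subtype.ext hjr
  have ht' : t' ≠ 1 := fun h => hτ1 (congrArg Subtype.val h)
  obtain ⟨f, hf⟩ := char_exists W' hgen hℓ hq1 h3 hW' hrel' hj' ht'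
  obtain ⟨θ, hθ⟩ := hL Q ℂˣ ℂˣ (powMonoidHom E) (pow_surj hE) (fun a b _ _ => mul_comm a b)
    (fun a ha => ha) f
  let τ₁ : Q.comap r := ⟨τ, htQ⟩
  let s₁ : Q.comap r := ⟨s, hsQ⟩
  have hw₁ : ((s₁ * τ₁ * s₁⁻¹ * (τ₁ ^ q)⁻¹ : Q.comap r) : Γ) ∈ W := hrel2
  obtain ⟨n, hn, hn1⟩ := hW _ hw₁
  have h5 : (θ (s₁ * τ₁ * s₁⁻¹ * (τ₁ ^ q)⁻¹)) ^ n = 1 := by
    rw [← map_pow]
    have : (s₁ * τ₁ * s₁⁻¹ * (τ₁ ^ q)⁻¹ : Q.comap r) ^ n = 1 := Subtype.ext hn1
    rw [this, map_one]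
  have h6 : θ (s₁ * τ₁ * s₁⁻¹ * (τ₁ ^ q)⁻¹) = ((θ τ₁) ^ (q - 1))⁻¹ := by
    rw [map_mul, map_mul, map_mul, map_inv, map_inv, map_pow, pow_sub _ hq1, pow_one,
      mul_comm (θ s₁), mul_inv_cancel_right, mul_inv_rev, inv_inv]
  have h7 : (θ τ₁) ^ ℓ ^ j = 1 := by
    rw [← map_pow]
    have : τ₁ ^ ℓ ^ j = 1 := Subtype.ext hj
    rw [this, map_one]
  have h8 : (θ τ₁) ^ (q - 1) = 1 := by
    rw [h6] at h5
    apply ell_part (n := n) (m := ℓ ^ j) _ _ (Nat.Coprime.pow_right _ hn)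
    · rwa [inv_pow, inv_eq_one] at h5
    · rw [← pow_mul, mul_comm, pow_mul, h7, one_pow]
  have h9 : (θ τ₁) ^ E ≠ 1 := by
    intro h
    apply hf
    rw [← hθ τ₁] at *
    exact h
  obtain ⟨b, _, hb⟩ := (Nat.dvd_prime_pow hℓ).1 (orderOf_dvd_of_pow_eq_one h7)
  have h10 : M < b := by
    by_contra hcon
    push Not at hcon
    apply h9
    rw [← orderOf_dvd_iff_pow_eq_one, hb]
    exact (pow_dvd_pow ℓ hcon).trans hM
  have h11 : ℓ ^ b ∣ q - 1 := by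
    rw [← hb]
    exact orderOf_dvd_of_pow_eq_one h8
  have h12 : ℓ ^ b ∣ orderOf τ := by
    have h13 : orderOf τ₁ = orderOf τ := Subgroup.orderOf_mk τ htQ
    rw [← hb, ← h13]
    exact orderOf_map_dvd θ τ₁
  exact ⟨(pow_dvd_pow ℓ h10).trans h11, (pow_dvd_pow ℓ h10).trans h12⟩

end core

end Pool.Agent.R768.SG
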